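import Pool.Agent.Helper72.PN.KeyN
import Pool.Agent.Helper29.TG.Contact
import Pool.Agent.Helper38.Sym.GenEngine

/-!
# Interpolation at a good place with a cycle outside the critical hypersurface
-/

set_option autoImplicit false

namespace Pool.Agent.Helper72.PN

open MvPolynomial Height Height.AdmissibleAbsValues
open Pool.Agent.Helper36 (step iter)
open Pool.Agent.Helper29.TG
open Pool.Agent.Helper38.Dml (pmap pjac GoodAt)

variable {ν : ℕ}

theorem DvrN_det_smul {E : Type*} [Field E] {f : Fin (ν + 1) → MvPolynomial (Fin (ν + 1)) E} {d : ℕ}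
    (hf : ∀ i, (f i).IsHomogeneous d) (s : E) (y : Fin (ν + 1) → E) :
    (pjac f (s • y)).det = s ^ ((ν + 1) * (d - 1)) * (pjac f y).det := by
  have h : pjac f (s • y) = s ^ (d - 1) • pjac f y := by
    ext i j
    simp only [pjac, Matrix.of_apply, Matrix.smul_apply, smul_eq_mul]
    exact Pool.Agent.Helper38.Dml.eval_smul_of_homog ((hf i).pderiv) s y
  rw [h, Matrix.det_smul, Fintype.card_fin, ← pow_mul, mul_comm (d - 1) (ν + 1)]

/-- A projectively periodic orbit outside the critical curve. -/
theorem DvrN_good {E : Type*} [Field E] {f : Fin (ν + 1) → MvPolynomial (Fin (ν + 1)) E} {d : ℕ}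
    (hf : ∀ i, (f i).IsHomogeneous d) {y₀ : Fin (ν + 1) → E} (h0 : ∀ n, (pmap f)^[n] y₀ ≠ 0)
    {i n : ℕ} (hin : i < n) {s : E} (hs : s ≠ 0)
    (hcyc : (pmap f)^[n] y₀ = s • (pmap f)^[i] y₀)
    (hJ : ∀ j, i ≤ j → j < n → (pjac f ((pmap f)^[j] y₀)).det ≠ 0) : GoodAt f y₀ := by
  have hclaim : ∀ k, ∃ r, i ≤ r ∧ r < n ∧ ∃ t : E, t ≠ 0 ∧
      (pmap f)^[i + k] y₀ = t • (pmap f)^[r] y₀ := by
    intro k
    induction k with
    | zero => exact ⟨i, le_rfl, hin, 1, one_ne_zero, by rw [add_zero, one_smul]⟩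
    | succ k ih =>
      obtain ⟨r, h1, h2, t, ht, h3⟩ := ih
      have h4 : (pmap f)^[i + (k + 1)] y₀ = t ^ d • (pmap f)^[r + 1] y₀ := by
        rw [← add_assoc, Function.iterate_succ_apply', h3,
          Pool.Agent.Helper38.Dml.pmap_smul hf, Function.iterate_succ_apply']
      rcases Nat.lt_or_ge (r + 1) n with h5 | h5
      · exact ⟨r + 1, by omega, h5, t ^ d, pow_ne_zero _ ht, h4⟩
      · have h6 : r + 1 = n := by omega
        refine ⟨i, le_rfl, hin, t ^ d * s, mul_ne_zero (pow_ne_zero _ ht) hs, ?_⟩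
        rw [h4, h6, hcyc, smul_smul]
  intro m
  refine ⟨h0 m, fun hper => ?_⟩
  obtain ⟨p, hp, hper⟩ := hper
  have h1 : (pmap f)^[m + i * p] y₀ = (pmap f)^[m] y₀ := by
    rw [Nat.add_comm m, Function.iterate_add_apply]
    exact hper.const_mul i
  have h2 : i ≤ m + i * p := by
    have : i * 1 ≤ i * p := Nat.mul_le_mul_left i hp
    omega
  obtain ⟨r, h3, h4, t, ht, h5⟩ := hclaim (m + i * p - i)
  rw [Nat.add_sub_cancel' h2, h1] at h5
  rw [h5, DvrN_det_smul hf]
  exact mul_ne_zero (pow_ne_zero _ ht) (hJ r h3 h4)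

theorem DvrN_cross_smul {K : Type} [Field K] (s t : K) (x y : Fin (ν + 1) → K) :
    cr (s • x) (t • y) = (s * t) • cr x y := by
  funext q
  simp only [cr, Pi.smul_apply, smul_eq_mul]
  ring

theorem DvrN_exists {K : Type} [Field K] (v : AbsoluteValue K ℝ) (x : Fin (ν + 1) → K) :
    ∃ i, v (x i) = nm v x :=
  exists_eq_ciSup_of_finite

theorem DvrN_core {R : Type*} [CommRing R] [IsDomain R] [CharZero R] [IsDiscreteValuationRing R]
    [Finite (IsLocalRing.ResidueField R)] {K : Type} [Field K] [Algebra R K]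
    (hinj : Function.Injective (algebraMap R K)) (v : AbsoluteValue K ℝ)
    (hex : ∀ x : K, v x ≤ 1 → ∃ r : R, algebraMap R K r = x)
    (hun : ∀ r : R, v (algebraMap R K r) = 1 → IsUnit r)
    (hun' : ∀ r : R, v (algebraMap R K r) < 1 → ¬ IsUnit r)
    {F : Fin (ν + 1) → MvPolynomial (Fin (ν + 1)) K} {d : ℕ}
    (hF : ∀ i, (F i).IsHomogeneous d) (hFi : ∀ i m, v ((F i).coeff m) ≤ 1)
    (hFn : ∀ x : Fin (ν + 1) → K, nm v (step F x) = nm v x ^ d)
    {a : Fin (ν + 1) → K} (ha : a ≠ 0) {i n : ℕ} (hin : i < n)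
    (hct : 0 < ct v (iter F a i) (iter F a n))
    (hJ : ∀ j, i ≤ j → j < n →
      v (eval (iter F a j) (Pool.Agent.Helper30.TKN.jf F)) = nm v (iter F a j) ^ ((ν + 1) * (d - 1)))
    {L : Type} [Field L] [Algebra K L] :
    Pool.Agent.Helper38.Sym.DMLgen (fun i => map (algebraMap K L) (F i))
      (fun i => algebraMap K L (a i)) := by
  classical
  obtain ⟨i₀, hi₀⟩ := DvrN_exists v a
  have hN : 0 < nm v a := nm_pos v ha
  have hc0 : a i₀ ≠ 0 := by
    intro h
    rw [h, map_zero] at hi₀
    exact hN.ne hi₀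
  have hb : ∀ k, ∃ r : R, algebraMap R K r = a k / a i₀ := fun k => hex _ (by
    rw [map_div₀, hi₀]
    exact div_le_one_of_le₀ (le_nm v a k) hN.le)
  choose b hb using hb
  have hG : ∀ i, ∃ G : MvPolynomial (Fin (ν + 1)) R, MvPolynomial.map (algebraMap R K) G = F i := by
    intro i
    refine (mem_range_map_iff_coeffs_subset (f := algebraMap R K) (x := F i)).2 ?_
    intro x hx
    rw [Finset.mem_coe, mem_coeffs_iff] at hx
    obtain ⟨m, _, rfl⟩ := hx
    exact hex _ (hFi i m)
  choose G hG using hG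
  have hGh : ∀ i, (G i).IsHomogeneous d := by
    intro i
    intro m hm
    refine hF i ?_
    rw [← hG i, coeff_map]
    intro h0
    exact hm (hinj (by rw [h0, map_zero]))
  set X : ℕ → Fin (ν + 1) → R := fun n => (pmap G)^[n] b with hX
  have hXs : ∀ n, X (n + 1) = pmap G (X n) := by
    intro n
    simp only [hX, Function.iterate_succ_apply']
  set z : ℕ → Fin (ν + 1) → K := fun n k => algebraMap R K (X n k) with hz
  have hstep : ∀ w : Fin (ν + 1) → K, step F w = fun i => eval w (F i) := by
    intro w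
    funext i
    simp only [step]
    rw [aeval_eq_eval]
  have hzs : ∀ n, z (n + 1) = step F (z n) := by
    intro n
    rw [hstep]
    funext k
    simp only [hz, hXs, pmap]
    rw [Pool.Agent.Helper38.Sym.map_eval_gen (algebraMap R K), hG]
  have hz0 : a = a i₀ • z 0 := by
    funext k
    simp only [hz, hX, Function.iterate_zero, id, Pi.smul_apply, smul_eq_mul, hb]
    rw [mul_div_cancel₀ _ hc0]
  have hnz : ∀ n, nm v (z n) = 1 := by
    intro n
    induction n with
    | zero =>
      have h1 : nm v a = v (a i₀) * nm v (z 0) := by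
        rw [← nm_smul, ← hz0]
      rw [hi₀] at h1
      have h2 : nm v a * 1 = nm v a * nm v (z 0) := by rw [mul_one]; exact h1
      exact (mul_left_cancel₀ hN.ne' h2).symm
    | succ n ih => rw [hzs, hFn, ih, one_pow]
  have hit : ∀ n, ∃ t : K, t ≠ 0 ∧ iter F a n = t • z n := by
    intro n
    induction n with
    | zero => exact ⟨a i₀, hc0, hz0⟩
    | succ n ih =>
      obtain ⟨t, ht, h⟩ := ih
      refine ⟨t ^ d, pow_ne_zero _ ht, ?_⟩
      rw [Pool.Agent.Helper36.iter_succ, h, hzs, hstep, hstep]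
      funext k
      rw [Pi.smul_apply, smul_eq_mul]
      exact Pool.Agent.Helper38.Dml.eval_smul_of_homog (hF k) t _
  -- reduction
  let φ : R →+* IsLocalRing.ResidueField R := IsLocalRing.residue R
  have hφ : ∀ r, φ r ≠ 0 → IsUnit r := fun r hr =>
    (IsLocalRing.residue_ne_zero_iff_isUnit r).1 hr
  have hφ' : ∀ r, v (algebraMap R K r) = 1 → φ r ≠ 0 := fun r hr =>
    (IsLocalRing.residue_ne_zero_iff_isUnit r).2 (hun r hr)
  have hφ0 : ∀ r, v (algebraMap R K r) < 1 → φ r = 0 := by
    intro r hr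
    by_contra h
    exact hun' r hr (hφ r h)
  set g : Fin (ν + 1) → MvPolynomial (Fin (ν + 1)) (IsLocalRing.ResidueField R) :=
    fun i => MvPolynomial.map φ (G i) with hg
  have hgh : ∀ i, (g i).IsHomogeneous d := fun i => (hGh i).map _
  have hy : ∀ n, (pmap g)^[n] (fun k => φ (b k)) = fun k => φ (X n k) := by
    intro n
    induction n with
    | zero => rfl
    | succ n ih =>
      rw [Function.iterate_succ_apply', ih]
      funext k
      rw [hXs]
      simp only [pmap, hg]
      exact (Pool.Agent.Helper38.Sym.map_eval_gen φ _ _).symm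
  have hy0 : ∀ n, (fun k => φ (X n k)) ≠ 0 := by
    intro n h
    obtain ⟨k, hk⟩ := DvrN_exists v (z n)
    rw [hnz] at hk
    exact hφ' _ hk (congrFun h k)
  have hgood : GoodAt g (fun k => φ (b k)) := by
    -- the cycle
    have hlt : nm v (cr (z i) (z n)) < 1 := by
      obtain ⟨s, hs, h1⟩ := hit i
      obtain ⟨t, ht, h2⟩ := hit n
      rcases (nm_nonneg v (cr (z i) (z n))).eq_or_lt with h0 | h0
      · rw [← h0]
        exact one_pos
      · unfold ct at hct
        rw [h1, h2, DvrN_cross_smul, nm_smul, nm_smul, nm_smul, hnz, hnz, map_mul,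
          mul_one, mul_one, Real.log_mul (mul_pos (v.pos hs) (v.pos ht)).ne' h0.ne',
          Real.log_mul (v.pos hs).ne' (v.pos ht).ne'] at hct
        have h3 : Real.log (nm v (cr (z i) (z n))) < 0 := by linarith
        by_contra h4
        exact absurd h3 (not_lt.2 (Real.log_nonneg (not_lt.1 h4)))
    have hmin : ∀ p q, φ (X i p) * φ (X n q) = φ (X n p) * φ (X i q) := by
      intro p q
      rw [← map_mul, ← map_mul, ← sub_eq_zero, ← map_sub]
      apply hφ0
      rw [map_sub, map_mul, map_mul]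
      have h1 := (le_nm v (cr (z i) (z n)) (p, q)).trans_lt hlt
      have h2 : cr (z i) (z n) (p, q) = z i p * z n q - z n p * z i q := by
        simp only [cr]
        ring
      rw [h2] at h1
      exact h1
    obtain ⟨p, hp⟩ := Function.ne_iff.1 (hy0 i)
    have hp' : φ (X i p) ≠ 0 := hp
    have hcyc : (fun k => φ (X n k)) = (φ (X n p) / φ (X i p)) • fun k => φ (X i k) := by
      funext q
      rw [Pi.smul_apply, smul_eq_mul, div_mul_eq_mul_div, eq_div_iff hp', mul_comm]
      exact hmin p q
    have hs : φ (X n p) / φ (X i p) ≠ 0 := by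
      intro h
      rw [h, zero_smul] at hcyc
      exact hy0 n hcyc
    refine DvrN_good hgh (fun m => by rw [hy]; exact hy0 m) hin hs (by rw [hy, hy]; exact hcyc) ?_
    intro j hij hjn
    rw [hy]
    obtain ⟨t, ht, h1⟩ := hit j
    have h2 := hJ j hij hjn
    rw [h1, Pool.Agent.Helper38.Dml.eval_smul_of_homog (Pool.Agent.Helper30.TKN.jf_hom hF), nm_smul, hnz, mul_one,
      map_mul, map_pow] at h2
    have h3 : v (eval (z j) (Pool.Agent.Helper30.TKN.jf F)) = 1 := by
      have h4 : v t ^ ((ν + 1) * (d - 1)) * v (eval (z j) (Pool.Agent.Helper30.TKN.jf F)) = v t ^ ((ν + 1) * (d - 1)) * 1 := by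
        rw [h2, mul_one]
      exact mul_left_cancel₀ (pow_ne_zero _ (v.pos ht).ne') h4
    have h5 : eval (z j) (Pool.Agent.Helper30.TKN.jf F) = algebraMap R K (pjac G (X j)).det := by
      rw [Pool.Agent.Helper30.TKN.eval_jf, RingHom.map_det]
      congr 1
      ext p q
      rw [RingHom.mapMatrix_apply, Matrix.map_apply]
      simp only [Pool.Agent.Helper38.TQ.jac, pjac, Matrix.of_apply]
      rw [Pool.Agent.Helper38.Sym.map_eval_gen (algebraMap R K), ← pderiv_map, hG]
    rw [h5] at h3
    have h6 := hφ' _ h3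
    rw [RingHom.map_det] at h6
    have h7 : φ.mapMatrix (pjac G (X j)) = pjac g (fun k => φ (X j k)) := by
      ext p q
      rw [RingHom.mapMatrix_apply, Matrix.map_apply]
      simp only [pjac, Matrix.of_apply, hg]
      rw [Pool.Agent.Helper38.Sym.map_eval_gen φ, ← pderiv_map]
    rw [h7] at h6
    exact h6
  -- the residue characteristic
  obtain ⟨p, hp⟩ := CharP.exists (IsLocalRing.ResidueField R)
  have hpp : p.Prime := CharP.char_is_prime (IsLocalRing.ResidueField R) p
  have hpR : (p : R) ∈ IsLocalRing.maximalIdeal R := by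
    rw [← IsLocalRing.residue_eq_zero_iff, map_natCast]
    exact CharP.cast_eq_zero _ p
  let _ : Algebra R L := ((algebraMap K L).comp (algebraMap R K)).toAlgebra
  have hRL : Function.Injective (algebraMap R L) := (algebraMap K L).injective.comp hinj
  have h := Pool.Agent.Helper38.Sym.dml_dvr_general p hpp hpR φ hφ G hGh b hgood hRL
    (algebraMap K L (a i₀)) (by
      rw [Ne, map_eq_zero]
      exact hc0)
  have e1 : (fun i => MvPolynomial.map (algebraMap R L) (G i)) =
      fun i => MvPolynomial.map (algebraMap K L) (F i) := by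
    funext k
    rw [← hG k, MvPolynomial.map_map]
    rfl
  have e2 : (fun k => algebraMap K L (a i₀) * algebraMap R L (b k)) =
      fun k => algebraMap K L (a k) := by
    funext k
    change algebraMap K L (a i₀) * algebraMap K L (algebraMap R K (b k)) = _
    rw [hb, ← map_mul, mul_div_cancel₀ _ hc0]
  rw [e1, e2] at h
  exact h

open NumberField in
theorem DvrN_finite {K : Type} [Field K] [NumberField K]
    (P : IsDedekindDomain.HeightOneSpectrum (𝓞 K)) :
    Finite (IsLocalRing.ResidueField (P.valuation K).valuationSubring) := by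
  classical
  have hmem : ∀ x : 𝓞 K, algebraMap (𝓞 K) K x ∈ (P.valuation K).valuationSubring :=
    fun x => P.valuation_le_one x
  let ψ : 𝓞 K →+* (P.valuation K).valuationSubring :=
    (algebraMap (𝓞 K) K).codRestrict _ hmem
  let θ : 𝓞 K →+* IsLocalRing.ResidueField (P.valuation K).valuationSubring :=
    (IsLocalRing.residue _).comp ψ
  have hI := Valuation.valuationSubring.integers (P.valuation K)
  have h0 : ∀ r : (P.valuation K).valuationSubring, P.valuation K (r : K) < 1 →
      IsLocalRing.residue _ r = 0 := by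
    intro r hr
    by_contra h
    have h1 := (hI.isUnit_iff_valuation_eq_one).1
      ((IsLocalRing.residue_ne_zero_iff_isUnit r).1 h)
    exact hr.ne h1
  have hker : ∀ x ∈ P.asIdeal, θ x = 0 := by
    intro x hx
    exact h0 _ ((P.valuation_lt_one_iff_mem x).2 hx)
  have hfin : Finite (𝓞 K ⧸ P.asIdeal) := P.asIdeal.finiteQuotientOfFreeOfNeBot P.ne_bot
  have hsurj : Function.Surjective (Ideal.Quotient.lift P.asIdeal θ hker) := by
    intro y
    obtain ⟨r, rfl⟩ := IsLocalRing.residue_surjective y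
    obtain ⟨x, hx⟩ := P.exists_valuation_sub_lt_of_integer (K := K) (x := (r : K)) r.2 1
    refine ⟨Ideal.Quotient.mk _ x, ?_⟩
    rw [Ideal.Quotient.lift_mk, ← sub_eq_zero]
    change IsLocalRing.residue _ (ψ x) - IsLocalRing.residue _ r = 0
    rw [← map_sub]
    exact h0 _ hx
  exact Finite.of_surjective _ hsurj

theorem dml_of_place {K : Type} [Field K] [NumberField K] (v : nonarchAbsVal (K := K))
    (hv : IsNonarchimedean v.val) {F : Fin (ν + 1) → MvPolynomial (Fin (ν + 1)) K} {d : ℕ}
    (hF : ∀ i, (F i).IsHomogeneous d) (hFi : ∀ i m, v.val ((F i).coeff m) ≤ 1)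
    (hFn : ∀ x : Fin (ν + 1) → K, nm v.val (step F x) = nm v.val x ^ d)
    {a : Fin (ν + 1) → K} (ha : a ≠ 0) {i n : ℕ} (hin : i < n)
    (hct : 0 < ct v.val (iter F a i) (iter F a n))
    (hJ : ∀ j, i ≤ j → j < n →
      v.val (eval (iter F a j) (Pool.Agent.Helper30.TKN.jf F)) = nm v.val (iter F a j) ^ ((ν + 1) * (d - 1)))
    {L : Type} [Field L] [Algebra K L] :
    Pool.Agent.Helper38.Sym.DMLgen (fun i => map (algebraMap K L) (F i))
      (fun i => algebraMap K L (a i)) := by
  obtain ⟨v, P, rfl⟩ := v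
  have hval : ∀ x : K, NumberField.place (NumberField.FinitePlace.embedding P) x =
      WithZeroMulInt.toNNReal (NumberField.HeightOneSpectrum.absNorm_ne_zero P)
        (P.valuation K x) := by
    intro x
    rw [NumberField.place_apply]
    exact NumberField.FinitePlace.norm_embedding' P x
  have hb := NumberField.HeightOneSpectrum.one_lt_absNorm_nnreal P
  have hle : ∀ x : K, NumberField.place (NumberField.FinitePlace.embedding P) x ≤ 1 ↔
      P.valuation K x ≤ 1 := by
    intro x
    rw [hval, NNReal.coe_le_one, WithZeroMulInt.toNNReal_le_one_iff hb]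
  have hlt : ∀ x : K, NumberField.place (NumberField.FinitePlace.embedding P) x < 1 ↔
      P.valuation K x < 1 := by
    intro x
    rw [hval, NNReal.coe_lt_one, WithZeroMulInt.toNNReal_lt_one_iff hb]
  have heq : ∀ x : K, NumberField.place (NumberField.FinitePlace.embedding P) x = 1 ↔
      P.valuation K x = 1 := by
    intro x
    rw [le_antisymm_iff, ← not_lt (a := _) (b := (1 : ℝ)), hle, hlt, not_lt, ← le_antisymm_iff]
  have := DvrN_finite P
  have hI := Valuation.valuationSubring.integers (P.valuation K)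
  exact DvrN_core (R := (P.valuation K).valuationSubring) (IsFractionRing.injective _ K) _
    (fun x hx => ⟨⟨x, (hle x).1 hx⟩, rfl⟩)
    (fun r hr => (hI.isUnit_iff_valuation_eq_one).2 ((heq _).1 hr))
    (fun r hr h => ((hlt _).1 hr).ne ((hI.isUnit_iff_valuation_eq_one).1 h))
    hF hFi hFn ha hin hct hJ

end Pool.Agent.Helper72.PN
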