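import Pool.Agent.Helper72.PN.BadN
import Pool.Agent.Helper72.PN.DvrN
import Pool.Agent.Helper29.TG.Count
import Pool.Agent.Helper38.TQ.CurveSet
import Pool.Agent.Helper30.TK2.Prog

/-!
# Curves in projective space over a number field
-/

set_option autoImplicit false

namespace Pool.Agent.Helper72.PN

open MvPolynomial Height Height.AdmissibleAbsValues
open Pool.Agent.Helper36 (step iter)
open Pool.Agent.Helper38.TQ

variable {ν : ℕ}

/-- The orbit over `ℂ` of a multiple of a point over `K`. -/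
theorem MainN_orbit {K : Type} [Field K] [Algebra K ℂ] {d : ℕ}
    {F : Fin (ν + 1) → MvPolynomial (Fin (ν + 1)) K}
    (hF : IsEndo d fun i => map (algebraMap K ℂ) (F i)) (x : Fin (ν + 1) → K) (c : ℂ) (n : ℕ) :
    (fun (x : Fin (ν + 1) → ℂ) (i : Fin (ν + 1)) =>
        eval x (map (algebraMap K ℂ) (F i)))^[n] (fun i => c * algebraMap K ℂ (x i)) =
      c ^ d ^ n • fun i => algebraMap K ℂ (iter F x n i) := by
  have h1 : (fun (x : Fin (ν + 1) → ℂ) (i : Fin (ν + 1)) =>
      eval x (map (algebraMap K ℂ) (F i))) = step fun i => map (algebraMap K ℂ) (F i) := by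
    funext x i
    rfl
  rw [h1]
  have h2 : (fun i => c * algebraMap K ℂ (x i)) = c • fun i => algebraMap K ℂ (x i) := rfl
  rw [h2]
  change iter (fun i => map (algebraMap K ℂ) (F i)) (c • fun i => algebraMap K ℂ (x i)) n = _
  rw [iter_smul hF]
  congr 1
  induction n with
  | zero => rfl
  | succ n ih =>
    rw [Pool.Agent.Helper36.iter_succ, ih]
    funext i
    change eval _ (map (algebraMap K ℂ) (F i)) = algebraMap K ℂ (iter F x (n + 1) i)
    rw [Pool.Agent.Helper36.iter_succ]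
    exact (Pool.Agent.Helper38.Sym.map_eval_gen (algebraMap K ℂ) _ _).symm

/-- The return sets of a scaled point. -/
theorem MainN_sets {K : Type} [Field K] [Algebra K ℂ] {d : ℕ}
    {F : Fin (ν + 1) → MvPolynomial (Fin (ν + 1)) K}
    (hF : IsEndo d fun i => map (algebraMap K ℂ) (F i)) (x : Fin (ν + 1) → K) {c : ℂ}
    (hc : c ≠ 0) (S : Set (MvPolynomial (Fin (ν + 1)) ℂ))
    (hS : ∀ g ∈ S, ∃ e : ℕ, g.IsHomogeneous e) :
    {n : ℕ | ∀ g ∈ S, eval ((fun (x : Fin (ν + 1) → ℂ) (i : Fin (ν + 1)) =>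
      eval x (map (algebraMap K ℂ) (F i)))^[n] (fun i => c * algebraMap K ℂ (x i))) g = 0} =
      {n : ℕ | ∀ g ∈ S, eval (fun i => algebraMap K ℂ (iter F x n i)) g = 0} := by
  ext n
  refine forall₂_congr fun g hg => ?_
  obtain ⟨e, he⟩ := hS g hg
  rw [MainN_orbit hF, eval_smul_hom he, mul_eq_zero]
  exact ⟨fun h => h.resolve_left (pow_ne_zero _ (pow_ne_zero _ hc)), Or.inr⟩

theorem MainN_hom {K : Type} [Field K] [Algebra K ℂ] {d : ℕ}
    {F : Fin (ν + 1) → MvPolynomial (Fin (ν + 1)) K}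
    (hF : IsEndo d fun i => map (algebraMap K ℂ) (F i)) (i : Fin (ν + 1)) :
    (F i).IsHomogeneous d :=
  IsHomogeneous.of_map (algebraMap K ℂ).injective (hF.hom i)

theorem MainN_endo {K : Type} [Field K] [Algebra K ℂ] {d : ℕ}
    {F : Fin (ν + 1) → MvPolynomial (Fin (ν + 1)) K}
    (hF : IsEndo d fun i => map (algebraMap K ℂ) (F i)) : IsEndo d F where
  two_le := hF.two_le
  hom := fun i => MainN_hom hF i
  nz := by
    intro x hx
    have h := hF.nz (fun i => algebraMap K ℂ (x i)) (by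
      intro i
      rw [← Pool.Agent.Helper38.Sym.map_eval_gen, hx, map_zero])
    funext i
    exact (map_eq_zero_iff _ (algebraMap K ℂ).injective).1 (congrFun h i)

theorem MainN_ne {K : Type} [Field K] [Algebra K ℂ] {d : ℕ}
    {F : Fin (ν + 1) → MvPolynomial (Fin (ν + 1)) K}
    (hF : IsEndo d fun i => map (algebraMap K ℂ) (F i)) {x : Fin (ν + 1) → K} (hx : x ≠ 0)
    (n : ℕ) : iter F x n ≠ 0 := by
  induction n with
  | zero => exact hx
  | succ n ih =>
    rw [Pool.Agent.Helper36.iter_succ]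
    intro h
    exact ih ((MainN_endo hF).nz _ fun i => congrFun h i)

/-- Preperiodic points. -/
theorem MainN_preper {K : Type} [Field K] [Algebra K ℂ] {d : ℕ}
    {F : Fin (ν + 1) → MvPolynomial (Fin (ν + 1)) K}
    (hF : IsEndo d fun i => map (algebraMap K ℂ) (F i)) (x : Fin (ν + 1) → K) {n m : ℕ}
    (hnm : n < m) (hp : PEq (iter F x n) (iter F x m))
    (S : Set (MvPolynomial (Fin (ν + 1)) ℂ)) (hS : ∀ g ∈ S, ∃ e : ℕ, g.IsHomogeneous e) :
    ∃ T : Finset (ℕ × ℕ),
      {n : ℕ | ∀ g ∈ S, eval (fun i => algebraMap K ℂ (iter F x n i)) g = 0} =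
        {n : ℕ | ∃ q ∈ T, ∃ m : ℕ, n = q.1 * m + q.2} := by
  classical
  have hFe : IsEndo d F := MainN_endo hF
  refine Pool.Agent.Helper30.TK2.exists_progressions (n₁ := n) (M := m - n) (by omega)
    fun s _ => ?_
  simp only [Set.mem_ofPred_eq]
  have hper : ∀ l, PEq (iter F x (n + s)) (iter F x (n + (m - n) * l + s)) := by
    intro l
    induction l with
    | zero => exact PEq.refl _
    | succ l ih =>
      refine ih.trans ?_
      have h1 : PEq (iter F (iter F x n) ((m - n) * l + s))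
          (iter F (iter F x m) ((m - n) * l + s)) := PEq.iter hFe hp _
      rw [← Pool.Agent.Helper36.iter_add, ← Pool.Agent.Helper36.iter_add] at h1
      rw [show n + (m - n) * l + s = (m - n) * l + s + n by ring,
        show n + (m - n) * (l + 1) + s = (m - n) * l + s + m by
          rw [mul_add, mul_one]
          omega]
      exact h1
  have hiff : ∀ l, (∀ g ∈ S, eval (fun i => algebraMap K ℂ (iter F x (n + (m - n) * l + s) i))
      g = 0) ↔ ∀ g ∈ S, eval (fun i => algebraMap K ℂ (iter F x (n + s) i)) g = 0 := by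
    intro l
    refine forall₂_congr fun g hg => ?_
    obtain ⟨e, he⟩ := hS g hg
    obtain ⟨u, hu, h⟩ := hper l
    have h2 : (fun i => algebraMap K ℂ (iter F x (n + (m - n) * l + s) i)) =
        algebraMap K ℂ u • fun i => algebraMap K ℂ (iter F x (n + s) i) := by
      rw [h]
      funext i
      simp
    rw [h2, eval_smul_hom he, mul_eq_zero]
    have hu' : algebraMap K ℂ u ≠ 0 := by rwa [ne_eq, map_eq_zero]
    exact ⟨fun h => h.resolve_left (pow_ne_zero _ hu'), Or.inr⟩
  by_cases h0 : ∀ g ∈ S, eval (fun i => algebraMap K ℂ (iter F x (n + s) i)) g = 0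
  · exact Or.inl fun l => (hiff l).2 h0
  · right
    convert Set.finite_empty
    ext l
    simp only [Set.mem_ofPred_eq, Set.mem_empty_iff_false, iff_false]
    exact fun h => h0 ((hiff l).1 h)

/-- Finite return sets. -/
theorem MainN_finite {R : Set ℕ} (hR : R.Finite) :
    ∃ T : Finset (ℕ × ℕ), R = {n : ℕ | ∃ q ∈ T, ∃ m : ℕ, n = q.1 * m + q.2} := by
  classical
  refine ⟨hR.toFinset.image fun n => (0, n), ?_⟩
  ext n
  simp only [Set.mem_ofPred_eq, Finset.mem_image, Set.Finite.mem_toFinset]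
  constructor
  · intro h
    exact ⟨(0, n), ⟨n, h, rfl⟩, 0, by simp⟩
  · rintro ⟨q, ⟨n', h, rfl⟩, m, rfl⟩
    simpa using h

/-- The relations between three linear forms, from ultrafilters to sets. -/
theorem MainN_onCurve {K : Type} [Field K] [Algebra K ℂ]
    {S : Set (MvPolynomial (Fin (ν + 1)) ℂ)} (hcur : CurveSet S) (y : ℕ → Fin (ν + 1) → K)
    {R : Set ℕ} (hR : ∀ n ∈ R, ∀ g ∈ S, eval (fun i => algebraMap K ℂ (y n i)) g = 0) :
    Pool.Agent.Helper29.TG.OnCurveS R y := by
  classical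
  intro a
  by_contra hcon
  set 𝒜 : Set (Set ℕ) := {A | ∃ (P : MvPolynomial (Fin 3) K) (e : ℕ), P ≠ 0 ∧
    P.IsHomogeneous e ∧ ∀ n ∈ A, eval (Pool.Agent.Helper29.TG.pl a (y n)) P = 0} with h𝒜
  have hmono : ∀ A ∈ 𝒜, ∀ A' : Set ℕ, A' ⊆ A → A' ∈ 𝒜 := by
    rintro A ⟨P, e, h1, h2, h3⟩ A' hA'
    exact ⟨P, e, h1, h2, fun n hn => h3 n (hA' hn)⟩
  let f : Filter ℕ :=
    { sets := {A | Aᶜ ∈ 𝒜}
      univ_sets := by
        refine ⟨1, 0, one_ne_zero, isHomogeneous_one _ _, fun n hn => ?_⟩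
        rw [Set.compl_univ] at hn
        exact absurd hn (Set.notMem_empty n)
      sets_of_superset := by
        intro A A' hA hAA'
        exact hmono _ hA _ (Set.compl_subset_compl.2 hAA')
      inter_sets := by
        rintro A A' ⟨P, e, h1, h2, h3⟩ ⟨P', e', h1', h2', h3'⟩
        refine ⟨P * P', e + e', mul_ne_zero h1 h1', h2.mul h2', fun n hn => ?_⟩
        rw [Set.compl_inter] at hn
        rw [map_mul]
        rcases hn with hn | hn
        · rw [h3 n hn, zero_mul]
        · rw [h3' n hn, mul_zero] }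
  have hne : (f ⊓ Filter.principal R).NeBot := by
    rw [Filter.inf_principal_neBot_iff]
    intro A hA
    by_contra hemp
    rw [Set.not_nonempty_iff_eq_empty] at hemp
    apply hcon
    have hA' : Aᶜ ∈ 𝒜 := hA
    refine hmono _ hA' R fun n hn hnA => ?_
    have h1 : n ∈ A ∩ R := ⟨hnA, hn⟩
    rw [hemp] at h1
    exact h1
  have hle := Ultrafilter.of_le (f ⊓ Filter.principal R)
  set U : Ultrafilter ℕ := Ultrafilter.of (f ⊓ Filter.principal R) with hU
  have hUR : ∀ᶠ n in (U : Filter ℕ), n ∈ R :=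
    hle (Filter.mem_inf_of_right (Filter.mem_principal_self R))
  obtain ⟨P, e, hP, hP0, hPU⟩ := hcur K y U (hUR.mono fun n hn => hR n hn) a
  have hA : {n | eval (fun j => ∑ i, a j i * y n i) P = 0}ᶜ ∈ (U : Filter ℕ) := by
    apply hle
    apply Filter.mem_inf_of_left
    change {n | eval (fun j => ∑ i, a j i * y n i) P = 0}ᶜᶜ ∈ 𝒜
    rw [compl_compl]
    exact ⟨P, e, hP0, hP, fun n hn => hn⟩
  have h1 := Filter.inter_mem hPU hA
  have h2 : ({n | eval (fun j => ∑ i, a j i * y n i) P = 0} ∩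
      {n | eval (fun j => ∑ i, a j i * y n i) P = 0}ᶜ : Set ℕ) = ∅ := Set.inter_compl_self _
  have h3 : (∅ : Set ℕ) ∈ (U : Filter ℕ) := by
    rw [← h2]
    exact h1
  exact Filter.empty_notMem _ h3

/-- Post-critically finite endomorphisms over a number field: orbits outside the post-critical
hypersurface and closed sets of dimension at most one. -/
theorem mainN {K : Type} [Field K] [NumberField K] [Algebra K ℂ] {d : ℕ}
    {F : Fin (ν + 1) → MvPolynomial (Fin (ν + 1)) K}
    (hF : IsEndo d fun i => map (algebraMap K ℂ) (F i)) {e E : ℕ}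
    {g q c : MvPolynomial (Fin (ν + 1)) K} (h : Pool.Agent.Helper38.PC.Data F e E g q c)
    {x : Fin (ν + 1) → K} (hx : x ≠ 0) (hg : ∀ n, eval (iter F x n) g ≠ 0) (u : ℂ) (hu : u ≠ 0)
    {S : Set (MvPolynomial (Fin (ν + 1)) ℂ)} (hS : ∀ g ∈ S, ∃ e, g.IsHomogeneous e)
    (hcur : CurveSet S) :
    ∃ T : Finset (ℕ × ℕ), {n : ℕ | ∀ g ∈ S, eval ((fun (x : Fin (ν + 1) → ℂ) (i : Fin (ν + 1)) =>
        eval x (map (algebraMap K ℂ) (F i)))^[n] (fun i => u * algebraMap K ℂ (x i))) g = 0} =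
      {n : ℕ | ∃ q ∈ T, ∃ m : ℕ, n = q.1 * m + q.2} := by
  classical
  rw [MainN_sets hF x hu S hS]
  by_cases hpre : ∃ n m, n < m ∧ PEq (iter F x n) (iter F x m)
  · obtain ⟨n, m, hnm, hp⟩ := hpre
    exact MainN_preper hF x hnm hp S hS
  set R : Set ℕ := {n : ℕ | ∀ g ∈ S, eval (fun i => algebraMap K ℂ (iter F x n i)) g = 0}
    with hR
  by_cases hfin : R.Finite
  · exact MainN_finite hfin
  have hne : ∀ n, iter F x n ≠ 0 := fun n => MainN_ne hF hx n
  have hhom : ∀ i, (F i).IsHomogeneous d := fun i => MainN_hom hF i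
  have hd : 2 ≤ d := hF.two_le
  have hnz : ∀ y : Fin (ν + 1) → ℂ, (∀ i, aeval y (F i) = 0) → y = 0 := by
    intro y hy
    refine hF.nz y fun i => ?_
    rw [eval_map]
    exact hy i
  have hcr : ∀ n m, n ≠ m → Pool.Agent.Helper29.TG.cr (iter F x n) (iter F x m) ≠ 0 := by
    have hlt : ∀ n m, n < m → Pool.Agent.Helper29.TG.cr (iter F x n) (iter F x m) ≠ 0 := by
      intro n m hnm h0
      apply hpre
      refine ⟨n, m, hnm, ?_⟩
      obtain ⟨i, hi⟩ := Function.ne_iff.1 (hne n)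
      have hi : iter F x n i ≠ 0 := hi
      have h1 : ∀ j, iter F x m j = (iter F x m i / iter F x n i) * iter F x n j := by
        intro j
        have h2 := congrFun h0 (i, j)
        simp only [Pool.Agent.Helper29.TG.cr, Pi.zero_apply] at h2
        field_simp
        linear_combination h2
      refine ⟨iter F x m i / iter F x n i, ?_, funext h1⟩
      intro h3
      apply hne m
      funext j
      rw [h1, h3, zero_mul]
      rfl
    intro n m hnm h0
    rcases lt_or_gt_of_ne hnm with h1 | h1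
    · exact hlt n m h1 h0
    · refine hlt m n h1 ?_
      funext p
      have h2 := congrFun h0 p
      simp only [Pool.Agent.Helper29.TG.cr, Pi.zero_apply] at h2 ⊢
      linear_combination -h2
  -- heights
  obtain ⟨C, hC⟩ := Pool.Agent.Helper36.exists_logHeight_step_ge F hhom hnz
  have hstep : ∃ C : ℝ, ∀ n, 2 * logHeight (iter F x n) ≤ logHeight (iter F x (n + 1)) + C := by
    refine ⟨-C, fun n => ?_⟩
    have h1 := hC (iter F x n)
    rw [Pool.Agent.Helper36.iter_succ]
    have h3 : (2 : ℝ) * logHeight (iter F x n) ≤ d * logHeight (iter F x n) :=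
      mul_le_mul_of_nonneg_right (by exact_mod_cast hd) (logHeight_nonneg _)
    linarith
  have hgrow : ∃ m₀, ∀ n, m₀ ≤ n → (2 : ℝ) ^ (n - m₀) ≤ logHeight (iter F x n) := by
    rcases Pool.Agent.Helper36.growth (L := ℂ) hd F hhom hnz (fun n => iter F x n) hne
      (fun n => Pool.Agent.Helper36.iter_succ F x n) with ⟨n, m, hnm, hp⟩ | ⟨m₀, hm₀⟩
    · exact absurd ⟨n, m, hnm, hp⟩ hpre
    · refine ⟨m₀, fun n hn => le_trans ?_ (hm₀ n hn)⟩
      exact pow_le_pow_left₀ (by norm_num) (by exact_mod_cast hd) _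
  -- the curve
  have hcurve : Pool.Agent.Helper29.TG.OnCurveS R (fun n => iter F x n) :=
    MainN_onCurve hcur _ fun n hn => hn
  obtain ⟨B, hB, hBgood⟩ := exists_bad (L := ℂ) hhom hnz g q c
  obtain ⟨v, hv, hvB, i, hi, n, hn, hi0, hin, hct, hdf⟩ :=
    Pool.Agent.Helper29.TG.exists_good_place (x := fun n => iter F x n) hne hfin
      (fun n _ m _ h => hcr n m h) hcurve hstep hgrow h.hom (n₀ := 0) (fun n _ => hg n) hB
  have hvg := hBgood v hv hvB
  obtain ⟨hpos, hJ⟩ := key hhom h hvg hne hin (hg i) (hdf i le_rfl hin)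
  have hdml := dml_of_place ⟨v, hv⟩ hvg.na hhom hvg.F_int hvg.F_nm hx hin hpos hJ (L := ℂ)
  obtain ⟨T, hT⟩ := hdml S hS
  refine ⟨T, ?_⟩
  rw [← hT]
  have h1 := MainN_sets hF x one_ne_zero S hS
  simp only [one_mul] at h1
  rw [hR, h1]

end Pool.Agent.Helper72.PN
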