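import Pool.Agent.Helper38.PC.Defs
import Pool.Agent.Helper58.PC.Post
import Pool.Agent.Helper30.TP.Jac

/-!
# The algebraic data of a post-critically finite endomorphism of projective space
-/

set_option autoImplicit false

namespace Pool.Agent.Helper72.PN

open MvPolynomial
open Pool.Agent.Helper36 (step iter iter_zero iter_succ iter_succ')
open Pool.Agent.Helper38.TQ
open Pool.Agent.Helper30.TKN
open Pool.Agent.Helper30.TP (form_of_mul derivation_algebraic)

variable {ν : ℕ}

/-- The Jacobian determinant of a finite map is not zero. -/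
theorem jf_ne_zero_of_integral {K : Type} [Field K] [CharZero K]
    {F : Fin (ν + 1) → MvPolynomial (Fin (ν + 1)) K}
    (hint : ∀ x : MvPolynomial (Fin (ν + 1)) K,
      IsIntegral (Algebra.adjoin K (Set.range F)) x) :
    jf F ≠ 0 := by
  classical
  intro h
  unfold jf at h
  obtain ⟨v, hv, hMv⟩ := Matrix.exists_mulVec_eq_zero_iff.2 h
  let D : Derivation K (MvPolynomial (Fin (ν + 1)) K) (MvPolynomial (Fin (ν + 1)) K) :=
    ∑ j, v j • pderiv j
  have hDap : ∀ a, D a = ∑ j, v j * pderiv j a := by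
    intro a
    change (∑ j, v j • pderiv j : Derivation K (MvPolynomial (Fin (ν + 1)) K)
      (MvPolynomial (Fin (ν + 1)) K)) a = _
    rw [← Derivation.coeFnAddMonoidHom_apply, map_sum, Finset.sum_apply]
    rfl
  have hDF : ∀ i, D (F i) = 0 := by
    intro i
    rw [hDap]
    have := congrFun hMv i
    simp only [Matrix.mulVec, dotProduct, Matrix.of_apply, Pi.zero_apply] at this
    rw [← this]
    exact Finset.sum_congr rfl fun j _ => mul_comm _ _
  have hDR : ∀ a ∈ Algebra.adjoin K (Set.range F), D a = 0 := by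
    intro a ha
    induction ha using Algebra.adjoin_induction with
    | mem x hx =>
      obtain ⟨i, rfl⟩ := hx
      exact hDF i
    | algebraMap r => exact D.map_algebraMap r
    | add x y _ _ hx hy => rw [map_add, hx, hy, add_zero]
    | mul x y _ _ hx hy => rw [Derivation.leibniz, hx, hy, smul_zero, smul_zero, add_zero]
  apply hv
  funext j
  obtain ⟨P, hP, h0⟩ := hint (X j)
  have h1 := derivation_algebraic (Algebra.adjoin K (Set.range F)) D hDR (X j) P.natDegree P
    hP.ne_zero le_rfl h0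
  rw [hDap] at h1
  simpa [pderiv_X, Pi.single_apply] using h1

/-- The forward orbit of the critical hypersurface is contained in the hypersurface `G = 0`: the
algebraic data exist, with a form `g` which divides `G`. -/
theorem exists_data {k : Type} [Field k] [IsAlgClosed k] [CharZero k] {d : ℕ}
    {F : Fin (ν + 1) → MvPolynomial (Fin (ν + 1)) k} (hF : IsEndo d F)
    {G : MvPolynomial (Fin (ν + 1)) k} {m : ℕ} (hG : G.IsHomogeneous m) (hG0 : G ≠ 0)
    (h : ∀ x : Fin (ν + 1) → k, eval x (jf F) = 0 → ∀ n, eval (iter F x n) G = 0) :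
    ∃ (e E : ℕ) (g q c : MvPolynomial (Fin (ν + 1)) k),
      Pool.Agent.Helper38.PC.Data F e E g q c ∧ g ∣ G := by
  classical
  have hd : 0 < d := by
    have := hF.two_le
    omega
  have hnz : ∀ x : Fin (ν + 1) → k, (∀ i, aeval x (F i) = 0) → x = 0 :=
    fun x hx => hF.nz x fun i => hx i
  obtain ⟨g, D, hgh, hsq, hgG, hgF, hgJ⟩ := Pool.Agent.Helper58.PC.exists_post_gen
    hd hF.hom hnz hG hG0 (fun x hx n => h x hx n)
  have hg0 : g ≠ 0 := hsq.ne_zero
  have hint := Pool.Agent.Helper65.PC.isIntegral_adjoin (L := k) hd hF.hom hnz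
  have hJ0 : jf F ≠ 0 := jf_ne_zero_of_integral hint
  obtain ⟨q, hq⟩ := hgF
  obtain ⟨E, c, hc⟩ := Pool.Agent.Helper65.PC.jac_dvd_pow (L := k) hd hF.hom hnz
    hJ0 hsq hgJ hq
  have hcomp : (aeval F g).IsHomogeneous (d * D) := hgh.aeval F hF.hom
  obtain ⟨e, he⟩ : ∃ e, q.IsHomogeneous e := by
    by_cases h0 : aeval F g = 0
    · rw [h0] at hq
      have h1 : q = 0 := (mul_eq_zero.1 hq.symm).resolve_left hg0
      exact ⟨0, by rw [h1]; exact isHomogeneous_zero _ _ _⟩
    · obtain ⟨i, j, -, hj, -⟩ := form_of_mul hcomp h0 hq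
      exact ⟨j, hj⟩
  obtain ⟨t, ht⟩ : ∃ t, c.IsHomogeneous t := by
    by_cases h0 : q ^ E = 0
    · rw [h0] at hc
      have h1 : c = 0 := (mul_eq_zero.1 hc.symm).resolve_left hJ0
      exact ⟨0, by rw [h1]; exact isHomogeneous_zero _ _ _⟩
    · obtain ⟨i, j, -, hj, -⟩ := form_of_mul (he.pow E) h0 hc
      exact ⟨j, hj⟩
  exact ⟨D, E, g, q, c, ⟨hgh, hg0, hq, hc.symm, ⟨e, he⟩, ⟨t, ht⟩⟩, hgG⟩

/-- The hypersurface `g = 0` is forward invariant: if infinitely many points of the orbit are
outside `G = 0`, then all points of the orbit are outside `g = 0`. -/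
theorem outside_of_frequently {k : Type} [Field k]
    {F : Fin (ν + 1) → MvPolynomial (Fin (ν + 1)) k} {e E : ℕ}
    {g q c G : MvPolynomial (Fin (ν + 1)) k} (h : Pool.Agent.Helper38.PC.Data F e E g q c)
    (hgG : g ∣ G) {a : Fin (ν + 1) → k} (hinf : ∀ n, ∃ m, n ≤ m ∧ eval (iter F a m) G ≠ 0)
    (n : ℕ) : eval (iter F a n) g ≠ 0 := by
  intro h0
  obtain ⟨m, hnm, hm⟩ := hinf n
  obtain ⟨b, rfl⟩ := Nat.exists_eq_add_of_le hnm
  obtain ⟨w, rfl⟩ := hgG
  apply hm
  rw [map_mul, h.eval_zero a n h0 b, zero_mul]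

end Pool.Agent.Helper72.PN
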