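import Pool.Agent.Helper72.PN.KeyN
import Pool.Agent.Helper29.TG.Contact
import Pool.Agent.Helper36.Growth

/-!
# Almost all places are good
-/

set_option autoImplicit false

namespace Pool.Agent.Helper72.PN

open MvPolynomial Height Height.AdmissibleAbsValues
open Pool.Agent.Helper36 (step iter exists_nullstellensatz)
open Pool.Agent.Helper29.TG

variable {ν : ℕ} {K : Type} [Field K]

theorem bad_sum_le {v : AbsoluteValue K ℝ} (hv : IsNonarchimedean v) {ι : Type*} (s : Finset ι)
    (f : ι → K) {r : ℝ} (hr : 0 ≤ r) (h : ∀ i ∈ s, v (f i) ≤ r) : v (∑ i ∈ s, f i) ≤ r := by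
  classical
  induction s using Finset.induction_on with
  | empty => simpa using hr
  | insert a s ha ih =>
    rw [Finset.sum_insert ha]
    refine (hv _ _).trans (max_le (h a (Finset.mem_insert_self a s)) ?_)
    exact ih fun i hi => h i (Finset.mem_insert_of_mem hi)

/-- Outside a finite set of places all nonzero elements of a finite set have value `1`. -/
theorem exists_fin_good [AdmissibleAbsValues K] (Z : Finset K) :
    ∃ B : Set (AbsoluteValue K ℝ), B.Finite ∧ ∀ v ∈ nonarchAbsVal (K := K), v ∉ B →
      ∀ z ∈ Z, z = 0 ∨ v z = 1 := by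
  classical
  induction Z using Finset.induction_on with
  | empty => exact ⟨∅, Set.finite_empty, fun v _ _ z hz => absurd hz (Finset.notMem_empty z)⟩
  | insert a s _ ih =>
    obtain ⟨B, hBf, hB⟩ := ih
    by_cases ha : a = 0
    · refine ⟨B, hBf, fun v hv hvB z hz => ?_⟩
      rcases Finset.mem_insert.1 hz with rfl | hz
      · exact Or.inl ha
      · exact hB v hv hvB z hz
    · have hfin : (Function.mulSupport fun v : nonarchAbsVal (K := K) => v.val a).Finite :=
        hasFiniteMulSupport ha
      refine ⟨B ∪ (fun v : nonarchAbsVal (K := K) => v.val) ''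
        (Function.mulSupport fun v : nonarchAbsVal (K := K) => v.val a),
        hBf.union (hfin.image _), fun v hv hvB z hz => ?_⟩
      rw [Set.mem_union, not_or] at hvB
      rcases Finset.mem_insert.1 hz with rfl | hz
      · right
        by_contra hne
        exact hvB.2 ⟨⟨v, hv⟩, hne, rfl⟩
      · exact hB v hv hvB.1 z hz

theorem exists_bad [AdmissibleAbsValues K] {L : Type} [Field L] [IsAlgClosed L] [Algebra K L]
    {F : Fin (ν + 1) → MvPolynomial (Fin (ν + 1)) K} {d : ℕ} (hF : ∀ i, (F i).IsHomogeneous d)
    (hnz : ∀ x : Fin (ν + 1) → L, (∀ i, aeval x (F i) = 0) → x = 0)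
    (g q c : MvPolynomial (Fin (ν + 1)) K) :
    ∃ B : Set (AbsoluteValue K ℝ), B.Finite ∧ ∀ v ∈ nonarchAbsVal (K := K), v ∉ B →
      GoodV v F d g q c := by
  classical
  obtain ⟨M, Q, hQ, hQF⟩ := exists_nullstellensatz (L := L) F hF hnz
  -- all coefficients
  let co : MvPolynomial (Fin (ν + 1)) K → Finset K := fun P => P.support.image fun m => P.coeff m
  let Z : Finset K := (Finset.univ.biUnion fun i => co (F i)) ∪
    (Finset.univ.biUnion fun a => co (Q a)) ∪ (co g ∪ co q ∪ co c)
  obtain ⟨B, hBf, hB⟩ := exists_fin_good (K := K) Z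
  refine ⟨B, hBf, fun v hv hvB => ?_⟩
  have hna : IsNonarchimedean v := isNonarchimedean v hv
  have key : ∀ P : MvPolynomial (Fin (ν + 1)) K, co P ⊆ Z →
      ∀ m, P.coeff m = 0 ∨ v (P.coeff m) = 1 := by
    intro P hP m
    by_cases hm : P.coeff m = 0
    · exact Or.inl hm
    · exact hB v hv hvB _ (hP (Finset.mem_image.2 ⟨m, mem_support_iff.2 hm, rfl⟩))
  have key1 : ∀ P : MvPolynomial (Fin (ν + 1)) K, co P ⊆ Z → ∀ m, v (P.coeff m) ≤ 1 := by
    intro P hP m
    rcases key P hP m with h | h
    · rw [h, map_zero]; exact zero_le_one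
    · exact h.le
  have hZF : ∀ i, co (F i) ⊆ Z := fun i => by
    refine (Finset.subset_biUnion_of_mem (fun i => co (F i)) (Finset.mem_univ i)).trans ?_
    exact Finset.subset_union_left.trans Finset.subset_union_left
  have hZQ : ∀ a, co (Q a) ⊆ Z := fun a => by
    refine (Finset.subset_biUnion_of_mem (fun a => co (Q a)) (Finset.mem_univ a)).trans ?_
    exact Finset.subset_union_right.trans Finset.subset_union_left
  have hZg : co g ⊆ Z :=
    (Finset.subset_union_left.trans Finset.subset_union_left).trans Finset.subset_union_right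
  have hZq : co q ⊆ Z :=
    (Finset.subset_union_right.trans Finset.subset_union_left).trans Finset.subset_union_right
  have hZc : co c ⊆ Z := Finset.subset_union_right.trans Finset.subset_union_right
  have hstep : ∀ (x : Fin (ν + 1) → K) (i : Fin (ν + 1)), step F x i = eval x (F i) := fun x i =>
    congrArg (fun φ => φ (F i)) (MvPolynomial.coe_aeval_eq_eval x)
  have hup : ∀ x : Fin (ν + 1) → K, nm v (step F x) ≤ nm v x ^ d := by
    intro x
    refine nm_le (pow_nonneg (nm_nonneg v x) d) fun i => ?_
    rw [hstep]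
    exact KeyN_eval_le hna (hF i) (key1 _ (hZF i)) x
  refine ⟨hna, fun i m => key1 _ (hZF i) m, fun x => le_antisymm (hup x) ?_, key1 _ hZg,
    key1 _ hZq, key1 _ hZc⟩
  by_cases hx : x = 0
  · subst hx
    rcases Nat.eq_zero_or_pos d with hd | hd
    · subst hd
      rw [pow_zero]
      -- some constant coefficient is not zero
      have h1 : ∃ i, (F i).coeff 0 ≠ 0 := by
        by_contra hcon
        push Not at hcon
        have h2 : ∀ i, F i = 0 := by
          intro i
          ext m
          by_cases hm : m = 0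
          · rw [hm, hcon i, coeff_zero]
          · rw [coeff_zero]
            refine (hF i).coeff_eq_zero fun h => hm ?_
            exact (Finsupp.degree_eq_zero_iff m).1 h
        have h3 := hnz (fun _ => 1) fun i => by rw [h2 i, map_zero]
        exact one_ne_zero (congrFun h3 0)
      obtain ⟨i, hi⟩ := h1
      have h4 : v ((F i).coeff 0) = 1 := (key _ (hZF i) 0).resolve_left hi
      have h5 : step F (0 : Fin (ν + 1) → K) i = (F i).coeff 0 := by
        rw [hstep, ← constantCoeff_eq]
        exact congrArg (fun φ => φ (F i)) (MvPolynomial.eval_zero' (R := K) (σ := Fin (ν + 1)))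
      rw [← h4, ← h5]
      exact le_nm v _ i
    · have h0 : nm v (0 : Fin (ν + 1) → K) = 0 := by
        refine le_antisymm (nm_le le_rfl fun i => ?_) (nm_nonneg _ _)
        rw [Pi.zero_apply, map_zero]
      rw [h0, zero_pow hd.ne']
      exact nm_nonneg _ _
  · have hpos : 0 < nm v x := nm_pos v hx
    obtain ⟨i, -, hi⟩ := exists_nm_eq v hx
    have h1 : nm v x ^ (M + d) ≤ nm v x ^ M * nm v (step F x) := by
      have h2 := congrArg (eval x) (hQF i)
      rw [map_pow, eval_X, map_sum] at h2
      have h3 : nm v x ^ (M + d) = v (∑ j, eval x (Q (i, j) * F j)) := by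
        rw [h2, map_pow, hi]
      rw [h3]
      refine bad_sum_le hna _ _ (mul_nonneg (pow_nonneg hpos.le _) (nm_nonneg _ _)) fun j _ => ?_
      rw [map_mul, map_mul]
      refine mul_le_mul (KeyN_eval_le hna (hQ (i, j)) (key1 _ (hZQ (i, j))) x) ?_ (v.nonneg _)
        (pow_nonneg hpos.le _)
      rw [← hstep]
      exact le_nm v _ j
    rw [pow_add] at h1
    exact le_of_mul_le_mul_left h1 (pow_pos hpos M)

end Pool.Agent.Helper72.PN
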