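import Pool.Agent.Helper29.TG.Df
import Pool.Agent.Helper38.PC.Defs

/-!
# The key lemma in projective space of any dimension
-/

set_option autoImplicit false

namespace Pool.Agent.Helper72.PN

open MvPolynomial
open Pool.Agent.Helper36 (step iter)
open Pool.Agent.Helper29.TG

variable {ν : ℕ} {K : Type} [Field K]

/-- `v` is a place of good reduction of `F` for the data `g`, `q`, `c`. -/
structure GoodV (v : AbsoluteValue K ℝ) (F : Fin (ν + 1) → MvPolynomial (Fin (ν + 1)) K) (d : ℕ)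
    (g q c : MvPolynomial (Fin (ν + 1)) K) : Prop where
  na : IsNonarchimedean v
  F_int : ∀ i m, v ((F i).coeff m) ≤ 1
  F_nm : ∀ x : Fin (ν + 1) → K, nm v (step F x) = nm v x ^ d
  g_int : ∀ m, v (g.coeff m) ≤ 1
  q_int : ∀ m, v (q.coeff m) ≤ 1
  c_int : ∀ m, v (c.coeff m) ≤ 1

section aux

variable {ι : Type} [Finite ι]

theorem KeyN_eval_le {v : AbsoluteValue K ℝ} (hv : IsNonarchimedean v)
    {P : MvPolynomial ι K} {e : ℕ} (hP : P.IsHomogeneous e) (hi : ∀ m, v (P.coeff m) ≤ 1)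
    (x : ι → K) : v (eval x P) ≤ nm v x ^ e := by
  have h := Df_eval_le_na hv hP zero_le_one (fun m _ => hi m) x
  rwa [one_mul] at h

omit [Finite ι] in
theorem KeyN_smul {P : MvPolynomial ι K} {e : ℕ} (hP : P.IsHomogeneous e) (c : K) (x : ι → K) :
    eval (c • x) P = c ^ e * eval x P := by
  have h := Pool.Agent.Helper36.aeval_smul_homogeneous hP c x
  have h1 := congrArg (fun φ => φ P) (coe_aeval_eq_eval (c • x))
  have h2 := congrArg (fun φ => φ P) (coe_aeval_eq_eval x)
  exact h1.symm.trans (h.trans (congrArg (fun a => c ^ e * a) h2))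

theorem KeyN_pow_sub {v : AbsoluteValue K ℝ} (hv : IsNonarchimedean v) {a b : K} {M δ : ℝ}
    (hM : 0 ≤ M) (hδ : 0 ≤ δ) (ha : v a ≤ M) (hb : v b ≤ M) (hab : v (a - b) ≤ δ) (k : ℕ) :
    v (a ^ k - b ^ k) * M ≤ M ^ k * δ := by
  induction k with
  | zero => simpa using hδ
  | succ k ih =>
    have h1 : a ^ (k + 1) - b ^ (k + 1) = a * (a ^ k - b ^ k) + (a - b) * b ^ k := by ring
    rw [h1]
    have h2 : v (a * (a ^ k - b ^ k)) * M ≤ M ^ (k + 1) * δ := by
      rw [map_mul]
      calc v a * v (a ^ k - b ^ k) * M = v a * (v (a ^ k - b ^ k) * M) := by ring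
        _ ≤ M * (M ^ k * δ) := mul_le_mul ha ih (mul_nonneg (v.nonneg _) hM) hM
        _ = _ := by ring
    have h3 : v ((a - b) * b ^ k) * M ≤ M ^ (k + 1) * δ := by
      rw [map_mul, map_pow]
      have h4 : v b ^ k ≤ M ^ k := pow_le_pow_left₀ (v.nonneg _) hb _
      calc v (a - b) * v b ^ k * M ≤ δ * M ^ k * M :=
            mul_le_mul_of_nonneg_right (mul_le_mul hab h4 (pow_nonneg (v.nonneg _) _) hδ) hM
        _ = _ := by ring
    have h5 := mul_le_mul_of_nonneg_right (hv (a * (a ^ k - b ^ k)) ((a - b) * b ^ k)) hM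
    rw [max_mul_of_nonneg _ _ hM] at h5
    exact h5.trans (max_le h2 h3)

omit [Finite ι] in
theorem KeyN_prod_sub {v : AbsoluteValue K ℝ} (hv : IsNonarchimedean v) {u w : ι → K}
    {M δ : ℝ} (hM : 0 ≤ M) (hδ : 0 ≤ δ) (hu : ∀ i, v (u i) ≤ M) (hw : ∀ i, v (w i) ≤ M)
    (huw : ∀ i, v (u i - w i) ≤ δ) (m : ι → ℕ) (s : Finset ι) :
    v (∏ i ∈ s, u i ^ m i - ∏ i ∈ s, w i ^ m i) * M ≤ M ^ (∑ i ∈ s, m i) * δ := by
  classical
  induction s using Finset.induction_on with
  | empty => simpa using hδ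
  | insert j s hj ih =>
    rw [Finset.prod_insert hj, Finset.prod_insert hj, Finset.sum_insert hj, pow_add]
    have h1 : u j ^ m j * ∏ i ∈ s, u i ^ m i - w j ^ m j * ∏ i ∈ s, w i ^ m i =
        u j ^ m j * (∏ i ∈ s, u i ^ m i - ∏ i ∈ s, w i ^ m i) +
          (u j ^ m j - w j ^ m j) * ∏ i ∈ s, w i ^ m i := by ring
    rw [h1]
    have h2 : v (u j ^ m j * (∏ i ∈ s, u i ^ m i - ∏ i ∈ s, w i ^ m i)) * M ≤
        M ^ m j * M ^ (∑ i ∈ s, m i) * δ := by
      rw [map_mul, map_pow]
      calc v (u j) ^ m j * v (∏ i ∈ s, u i ^ m i - ∏ i ∈ s, w i ^ m i) * M =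
            v (u j) ^ m j * (v (∏ i ∈ s, u i ^ m i - ∏ i ∈ s, w i ^ m i) * M) := by ring
        _ ≤ M ^ m j * (M ^ (∑ i ∈ s, m i) * δ) :=
          mul_le_mul (pow_le_pow_left₀ (v.nonneg _) (hu j) _) ih
            (mul_nonneg (v.nonneg _) hM) (pow_nonneg hM _)
        _ = _ := by ring
    have h3 : v ((u j ^ m j - w j ^ m j) * ∏ i ∈ s, w i ^ m i) * M ≤
        M ^ m j * M ^ (∑ i ∈ s, m i) * δ := by
      rw [map_mul, map_prod]
      have h4 := KeyN_pow_sub hv hM hδ (hu j) (hw j) (huw j) (m j)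
      have h5 : ∏ i ∈ s, v (w i ^ m i) ≤ M ^ (∑ i ∈ s, m i) := by
        rw [← Finset.prod_pow_eq_pow_sum]
        refine Finset.prod_le_prod (fun i _ => v.nonneg _) fun i _ => ?_
        rw [map_pow]
        exact pow_le_pow_left₀ (v.nonneg _) (hw i) _
      calc v (u j ^ m j - w j ^ m j) * (∏ i ∈ s, v (w i ^ m i)) * M =
            (v (u j ^ m j - w j ^ m j) * M) * ∏ i ∈ s, v (w i ^ m i) := by ring
        _ ≤ (M ^ m j * δ) * M ^ (∑ i ∈ s, m i) :=
          mul_le_mul h4 h5 (Finset.prod_nonneg fun i _ => v.nonneg _)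
            (mul_nonneg (pow_nonneg hM _) hδ)
        _ = _ := by ring
    have h5 := mul_le_mul_of_nonneg_right
      (hv (u j ^ m j * (∏ i ∈ s, u i ^ m i - ∏ i ∈ s, w i ^ m i))
        ((u j ^ m j - w j ^ m j) * ∏ i ∈ s, w i ^ m i)) hM
    rw [max_mul_of_nonneg _ _ hM] at h5
    exact h5.trans (max_le h2 h3)

omit [Finite ι] in
theorem KeyN_eval_sub {v : AbsoluteValue K ℝ} (hv : IsNonarchimedean v)
    {P : MvPolynomial ι K} {e : ℕ} (hP : P.IsHomogeneous e) (hi : ∀ m, v (P.coeff m) ≤ 1)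
    {u w : ι → K} {M δ : ℝ} (hM : 0 < M) (hδ : 0 ≤ δ) (hu : ∀ i, v (u i) ≤ M)
    (hw : ∀ i, v (w i) ≤ M) (huw : ∀ i, v (u i - w i) ≤ δ) :
    v (eval u P - eval w P) * M ≤ M ^ e * δ := by
  rw [← le_div_iff₀ hM, eval_eq, eval_eq, ← Finset.sum_sub_distrib]
  rcases P.support.eq_empty_or_nonempty with h0 | hs
  · rw [h0, Finset.sum_empty, map_zero]
    positivity
  · obtain ⟨m, hm, h1⟩ := IsNonarchimedean.finset_image_add_of_nonempty hv
      (fun m => coeff m P * ∏ i ∈ m.support, u i ^ m i -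
        coeff m P * ∏ i ∈ m.support, w i ^ m i) hs
    refine h1.trans ?_
    rw [← mul_sub, map_mul, le_div_iff₀ hM, ← Df_degree hP hm]
    have h2 := KeyN_prod_sub hv hM.le hδ hu hw huw m m.support
    calc v (coeff m P) * v (∏ i ∈ m.support, u i ^ m i - ∏ i ∈ m.support, w i ^ m i) * M =
          v (coeff m P) *
            (v (∏ i ∈ m.support, u i ^ m i - ∏ i ∈ m.support, w i ^ m i) * M) := by ring
      _ ≤ 1 * (M ^ (∑ i ∈ m.support, m i) * δ) :=
          mul_le_mul (hi m) h2 (mul_nonneg (v.nonneg _) hM.le) zero_le_one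
      _ = _ := one_mul _

theorem KeyN_minor (v : AbsoluteValue K ℝ) (x y : ι → K) (p i : ι) :
    v (x p * y i - y p * x i) ≤ nm v (cr x y) := by
  have h := le_nm v (cr x y) (p, i)
  have h1 : cr x y (p, i) = x p * y i - y p * x i := by
    simp only [cr]
    ring
  rwa [h1] at h

/-- The hypothesis on the contact without logarithms. -/
theorem KeyN_lt {v : AbsoluteValue K ℝ} {x y : ι → K} (hx : x ≠ 0) (hy : y ≠ 0) {D : ℕ}
    {A : ℝ} (hA : 0 < A)
    (h : D * Real.log (nm v x) - Real.log A < ct v x y) :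
    nm v (cr x y) * nm v x ^ D < A * (nm v x * nm v y) := by
  have hX := nm_pos v hx
  have hY := nm_pos v hy
  rcases (nm_nonneg v (cr x y)).eq_or_lt with h0 | h0
  · rw [← h0, zero_mul]
    positivity
  · rw [← Real.log_lt_log_iff (by positivity) (by positivity), Real.log_mul h0.ne' (by positivity),
      Real.log_pow, Real.log_mul hA.ne' (by positivity), Real.log_mul hX.ne' hY.ne']
    unfold ct at h
    linarith

/-- Equal values of a form at points with large contact. -/
theorem val_eq_of_ct {v : AbsoluteValue K ℝ} (hv : IsNonarchimedean v)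
    {g : MvPolynomial ι K} {D : ℕ} (hg : g.IsHomogeneous D) (hgi : ∀ m, v (g.coeff m) ≤ 1)
    {x y : ι → K} (hx : x ≠ 0) (hy : y ≠ 0) (hgx : eval x g ≠ 0)
    (h : df v g D x < ct v x y) :
    v (eval y g) * nm v x ^ D = v (eval x g) * nm v y ^ D := by
  have hX := nm_pos v hx
  have hY := nm_pos v hy
  have hA : 0 < v (eval x g) := v.pos hgx
  have hlt := KeyN_lt hx hy hA h
  have hle := KeyN_eval_le hv hg hgi x
  have hW : nm v (cr x y) < nm v x * nm v y := by
    have h1 : nm v (cr x y) * nm v x ^ D < (nm v x * nm v y) * nm v x ^ D := by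
      refine hlt.trans_le ?_
      rw [mul_comm]
      exact mul_le_mul_of_nonneg_left hle (by positivity)
    exact lt_of_mul_lt_mul_right h1 (by positivity)
  obtain ⟨p, -, hp'⟩ := exists_nm_eq v hx
  have hp := hp'.symm
  -- the coordinate of `y`
  have hyp : v (y p) = nm v y := by
    obtain ⟨i, -, hi'⟩ := exists_nm_eq v hy
    have hi := hi'.symm
    refine le_antisymm (le_nm v y p) ?_
    have h1 : v (x p * y i) = nm v x * nm v y := by rw [map_mul, hp, hi]
    have h2 := KeyN_minor v x y p i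
    have h3 : v (y p * x i) = v (x p * y i) := by
      have h4 : v (-(x p * y i - y p * x i)) < v (x p * y i) := by
        rw [v.map_neg, h1]
        exact h2.trans_lt hW
      have h5 := IsNonarchimedean.add_eq_right_of_lt hv h4
      rw [← h5]
      congr 1
      ring
    rw [h1, map_mul] at h3
    have h6 : nm v x * nm v y ≤ v (y p) * nm v x := by
      rw [← h3]
      exact mul_le_mul_of_nonneg_left (le_nm v x i) (v.nonneg _)
    rw [mul_comm] at h6
    exact le_of_mul_le_mul_right h6 hX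
  -- the difference
  have hdiff := KeyN_eval_sub hv hg hgi (u := x p • y) (w := y p • x)
    (M := nm v x * nm v y) (δ := nm v (cr x y)) (by positivity)
    (nm_nonneg _ _)
    (fun i => by
      rw [Pi.smul_apply, smul_eq_mul, map_mul, hp]
      exact mul_le_mul_of_nonneg_left (le_nm v y i) hX.le)
    (fun i => by
      rw [Pi.smul_apply, smul_eq_mul, map_mul, hyp, mul_comm]
      exact mul_le_mul_of_nonneg_right (le_nm v x i) hY.le)
    (fun i => KeyN_minor v x y p i)
  rw [KeyN_smul hg, KeyN_smul hg] at hdiff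
  have h1 : v (y p ^ D * eval x g) = nm v y ^ D * v (eval x g) := by
    rw [map_mul, map_pow, hyp]
  have h2 : v (x p ^ D * eval y g - y p ^ D * eval x g) < v (y p ^ D * eval x g) := by
    rw [h1]
    refine lt_of_mul_lt_mul_right (a := nm v x * nm v y) ?_ (by positivity)
    refine hdiff.trans_lt ?_
    calc (nm v x * nm v y) ^ D * nm v (cr x y) =
          nm v y ^ D * (nm v (cr x y) * nm v x ^ D) := by ring
      _ < nm v y ^ D * (v (eval x g) * (nm v x * nm v y)) :=
          mul_lt_mul_of_pos_left hlt (by positivity)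
      _ = _ := by ring
  have h3 := IsNonarchimedean.add_eq_right_of_lt hv h2
  rw [sub_add_cancel, h1, map_mul, map_pow, hp] at h3
  linarith

end aux

theorem KeyN_jf_le {v : AbsoluteValue K ℝ} (hv : IsNonarchimedean v)
    {F : Fin (ν + 1) → MvPolynomial (Fin (ν + 1)) K} {d : ℕ} (hF : ∀ i, (F i).IsHomogeneous d)
    (hi : ∀ i m, v ((F i).coeff m) ≤ 1) (x : Fin (ν + 1) → K) :
    v (eval x (Pool.Agent.Helper30.TKN.jf F)) ≤ nm v x ^ ((ν + 1) * (d - 1)) := by
  rw [Pool.Agent.Helper30.TKN.eval_jf, Matrix.det_apply]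
  have hterm : ∀ σ : Equiv.Perm (Fin (ν + 1)),
      v (Equiv.Perm.sign σ • ∏ i, Pool.Agent.Helper38.TQ.jac F x (σ i) i) ≤
        nm v x ^ ((ν + 1) * (d - 1)) := by
    intro σ
    have h1 : v (∏ i, Pool.Agent.Helper38.TQ.jac F x (σ i) i) ≤
        nm v x ^ ((ν + 1) * (d - 1)) := by
      rw [map_prod]
      have h2 : ∀ i : Fin (ν + 1),
          v (Pool.Agent.Helper38.TQ.jac F x (σ i) i) ≤ nm v x ^ (d - 1) := by
        intro i
        refine KeyN_eval_le hv ((hF (σ i)).pderiv) (fun m => ?_) x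
        rw [coeff_pderiv, map_mul]
        have h3 : v ((m i : K) + 1) ≤ 1 := by
          have h4 := IsNonarchimedean.apply_natCast_le_one hv (n := m i + 1)
          rwa [Nat.cast_add, Nat.cast_one] at h4
        calc v (coeff (m + Finsupp.single i 1) (F (σ i))) * v ((m i : K) + 1) ≤ 1 * 1 :=
              mul_le_mul (hi _ _) h3 (v.nonneg _) zero_le_one
          _ = 1 := one_mul 1
      calc ∏ i, v (Pool.Agent.Helper38.TQ.jac F x (σ i) i) ≤
            ∏ _i : Fin (ν + 1), nm v x ^ (d - 1) :=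
            Finset.prod_le_prod (fun i _ => v.nonneg _) fun i _ => h2 i
        _ = _ := by
          rw [Finset.prod_const, Finset.card_univ, Fintype.card_fin, ← pow_mul, mul_comm]
    rcases Int.units_eq_one_or (Equiv.Perm.sign σ) with h | h
    · rw [h, one_smul]
      exact h1
    · rw [h, Units.neg_smul, one_smul, v.map_neg]
      exact h1
  obtain ⟨σ, -, h⟩ := IsNonarchimedean.finset_image_add_of_nonempty hv
    (fun σ : Equiv.Perm (Fin (ν + 1)) =>
      Equiv.Perm.sign σ • ∏ i, Pool.Agent.Helper38.TQ.jac F x (σ i) i)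
    (Finset.univ_nonempty)
  exact h.trans (hterm σ)

/-- The key lemma. -/
theorem key {v : AbsoluteValue K ℝ} {F : Fin (ν + 1) → MvPolynomial (Fin (ν + 1)) K} {d : ℕ}
    (hF : ∀ i, (F i).IsHomogeneous d) {g q c : MvPolynomial (Fin (ν + 1)) K} {e E : ℕ}
    (hP : Pool.Agent.Helper38.PC.Data F e E g q c) (hv : GoodV v F d g q c)
    {a : Fin (ν + 1) → K} (ha : ∀ n, iter F a n ≠ 0) {i n : ℕ} (hin : i < n)
    (hgi : eval (iter F a i) g ≠ 0)
    (h : df v g e (iter F a i) < ct v (iter F a i) (iter F a n)) :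
    0 < ct v (iter F a i) (iter F a n) ∧ ∀ j, i ≤ j → j < n →
      v (eval (iter F a j) (Pool.Agent.Helper30.TKN.jf F)) =
        nm v (iter F a j) ^ ((ν + 1) * (d - 1)) := by
  obtain ⟨m, hqm⟩ := hP.homq
  obtain ⟨t, hct⟩ := hP.homc
  have hN : ∀ j, 0 < nm v (iter F a j) := fun j => nm_pos v (ha j)
  have hnext : ∀ j, eval (iter F a (j + 1)) g =
      eval (iter F a j) g * eval (iter F a j) q := by
    intro j
    rw [Pool.Agent.Helper36.iter_succ, hP.eval_step]
  have hNs : ∀ j, nm v (iter F a (j + 1)) = nm v (iter F a j) ^ d := by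
    intro j
    rw [Pool.Agent.Helper36.iter_succ, hv.F_nm]
  have heq := val_eq_of_ct hv.na hP.hom hv.g_int (ha i) (ha n) hgi h
  have hgn : eval (iter F a n) g ≠ 0 := by
    intro h0
    rw [h0, map_zero, zero_mul] at heq
    exact mul_ne_zero (v.ne_zero hgi) (pow_pos (hN n) e).ne' heq.symm
  have hgne : ∀ j, j ≤ n → eval (iter F a j) g ≠ 0 := by
    intro j hj h0
    obtain ⟨k, rfl⟩ := Nat.exists_eq_add_of_le hj
    exact hgn (hP.eval_zero _ _ h0 k)
  have hqne : ∀ j, j < n → eval (iter F a j) q ≠ 0 := by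
    intro j hj h0
    apply hgne (j + 1) hj
    rw [hnext, h0, mul_zero]
  have hq0 : q ≠ 0 := by
    rintro rfl
    exact hqne i hin (map_zero _)
  have hdeg : d * e = e + m := by
    have h1 : (aeval F g).IsHomogeneous (d * e) := hP.hom.aeval F hF
    rw [hP.comp] at h1
    exact h1.inj_right (hP.hom.mul hqm) (mul_ne_zero hP.ne hq0)
  -- the ratio
  set ρ : ℕ → ℝ := fun j => v (eval (iter F a j) g) / nm v (iter F a j) ^ e with hρ
  have hqle : ∀ j, v (eval (iter F a j) q) ≤ nm v (iter F a j) ^ m := fun j =>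
    KeyN_eval_le hv.na hqm hv.q_int _
  have hstep : ∀ j, ρ (j + 1) = ρ j * (v (eval (iter F a j) q) / nm v (iter F a j) ^ m) := by
    intro j
    simp only [hρ]
    rw [hnext, hNs, ← pow_mul, hdeg, map_mul, pow_add, mul_div_mul_comm]
  have hρ0 : ∀ j, 0 ≤ ρ j := fun j => div_nonneg (v.nonneg _) (pow_pos (hN j) _).le
  have hanti : Antitone ρ := by
    refine antitone_nat_of_succ_le fun j => ?_
    rw [hstep]
    refine mul_le_of_le_one_right (hρ0 j) ?_
    rw [div_le_one (pow_pos (hN j) _)]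
    exact hqle j
  have hend : ρ n = ρ i := by
    simp only [hρ]
    rw [div_eq_div_iff (pow_pos (hN n) _).ne' (pow_pos (hN i) _).ne']
    exact heq
  refine ⟨?_, fun j hij hjn => ?_⟩
  · refine lt_of_le_of_lt ?_ h
    exact df_nonneg hv.na hP.hom hv.g_int hgi
  · have h1 : ρ (j + 1) = ρ j :=
      le_antisymm (hanti (Nat.le_succ j))
        (((hanti hij).trans hend.symm.le).trans (hanti hjn))
    have hρj : 0 < ρ j := div_pos (v.pos (hgne j hjn.le)) (pow_pos (hN j) _)
    have h2 : v (eval (iter F a j) q) = nm v (iter F a j) ^ m := by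
      rw [hstep] at h1
      have h3 : v (eval (iter F a j) q) / nm v (iter F a j) ^ m = 1 := by
        have h4 : ρ j * (v (eval (iter F a j) q) / nm v (iter F a j) ^ m) = ρ j * 1 := by
          rw [h1, mul_one]
        exact mul_left_cancel₀ hρj.ne' h4
      exact (div_eq_one_iff_eq (pow_pos (hN j) _).ne').1 h3
    have h5 : m * E = (ν + 1) * (d - 1) + t := by
      have h6 : (q ^ E).IsHomogeneous (m * E) := hqm.pow E
      have h7 := (Pool.Agent.Helper30.TKN.jf_hom hF).mul hct
      rw [hP.dvd] at h7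
      exact h6.inj_right h7 (pow_ne_zero _ hq0)
    have h6 : v (eval (iter F a j) (Pool.Agent.Helper30.TKN.jf F)) * v (eval (iter F a j) c) =
        nm v (iter F a j) ^ ((ν + 1) * (d - 1)) * nm v (iter F a j) ^ t := by
      rw [← map_mul, ← map_mul, hP.dvd, map_pow, map_pow, h2, ← pow_mul, h5, pow_add]
    have h7 := KeyN_jf_le hv.na hF hv.F_int (iter F a j)
    have h8 := KeyN_eval_le hv.na hct hv.c_int (iter F a j)
    refine le_antisymm h7 ?_
    by_contra hlt
    push Not at hlt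
    have h9 : v (eval (iter F a j) (Pool.Agent.Helper30.TKN.jf F)) * v (eval (iter F a j) c) <
        nm v (iter F a j) ^ ((ν + 1) * (d - 1)) * nm v (iter F a j) ^ t :=
      mul_lt_mul_of_lt_of_le_of_nonneg_of_pos hlt h8 (v.nonneg _) (pow_pos (hN j) _)
    exact h9.ne h6

end Pool.Agent.Helper72.PN
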